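import Pool.Agent.N236.UR.Main5

/-!
# Uniform boundedness for compositions of Moebius maps, power maps and Dickson polynomials

For all `D`, `b` and `d ≥ 2` there are `N ≥ 1` and `C` such that for every number field `K` with
`[K : ℚ] ≤ D` and every self-map `φ` of `ℙ¹` of degree `d` which is a composition of Moebius maps over
`K`, power maps `z ↦ z ^ l` (`l > D b + 1` prime) and Dickson polynomials `D_l (z, α)`
(`l > 2 D b + 1` prime, `α ∈ K` arbitrary), every preperiodic point `P ∈ ℙ¹ (K̄)` of `φ` which has
coordinates in an extension of `K` of degree at most `b` satisfies `φ ^ N (P) = P`, and there are at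
most `C` such points. There is no condition on the coefficients or on the places of bad reduction.

Idea. Choose two primes `p` which are primitive roots modulo all primes `l ∣ d`. Let `F` be an extension
of `K` of degree at most `b` and `v` a place of `F` above `p`, with residue field of `q = p ^ f`
elements, `f ≤ D b`. Then `l` does not divide `q - 1` (for the Dickson polynomials: `q ^ 2 - 1`) and each
stage is a bijection of `ℙ¹ (F_v)` which moves absolute values of cross-ratios monotonically (it stretches
the tree of `ℙ¹` along the axis, for a Dickson polynomial along the ray above the radius `|α| ^ (1/2)`).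
Along a cycle they are therefore constant: a cycle carries an invariant ultrametric, and the cycle is a
translation of `ℤ / n` for it. Hence all primes dividing `n` are at most `q + 1`, and for primes `r ≠ p`
the exponent of `r` in `n` is bounded since outside of at most one exceptional depth for each stage the
displacements of a subcycle are constant modulo the maximal ideal up to a common factor. The second
prime gives the exponent of the first.

Parts by helpers 7, 56, 87, 106, 160, 222, 278, 281, 318, 322, 360, 491, 492, 578, 591, 618, 622, 727,
803, 823, 878, 985 and (places, primes) 514, 624.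
-/

set_option autoImplicit false

open Polynomial

namespace Pool.Agent.N236.Shelf.ExceptionalMaps

open Pool.Agent.N236.UR
open scoped LinearAlgebra.Projectivization

theorem result : ∀ D b d : ℕ, 2 ≤ d → ∃ N C : ℕ, 1 ≤ N ∧
    ∀ (K : Type) [Field K] [NumberField K], Module.finrank ℚ K ≤ D →
      ∀ φ : ℙ (AlgebraicClosure K) (AlgebraicClosure K × AlgebraicClosure K) →
          ℙ (AlgebraicClosure K) (AlgebraicClosure K × AlgebraicClosure K),
        ExcP K (AlgebraicClosure K) (D * b) φ d →
        (∀ P, RatLe K b P → (∃ m n : ℕ, m < n ∧ φ^[m] P = φ^[n] P) → φ^[N] P = P) ∧
        {P | RatLe K b P ∧ ∃ m n : ℕ, m < n ∧ φ^[m] P = φ^[n] P}.Finite ∧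
        {P | RatLe K b P ∧ ∃ m n : ℕ, m < n ∧ φ^[m] P = φ^[n] P}.ncard ≤ C :=
  fun D b d hd => main5' D b d hd

end Pool.Agent.N236.Shelf.ExceptionalMaps
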