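import Pool.Agent.N236.UB.Main

/-!
# Uniform boundedness of periodic points for Hénon maps with exceptional polynomials

For all `D`, `B` and `d ≥ 2` there is a constant `C` such that for every number field `K` of degree
`D` and every generalized Hénon map `f (x, y) = (y, F y - δ x)` of degree `d` over `K` whose
polynomial `F` is a composition over `K` of

* affine maps `a X + b`,
* powers `X ^ l`, `l > D B + 1` prime,
* Dickson (Chebyshev) polynomials `D_l (X, α)`, `l > 2 D B + 1` prime, `α ∈ K` arbitrary,

at most `C` periodic points `P` of `f` satisfy `[K(P) : K] ≤ B`. There is no condition on the
coefficients. For `D = B = 1` this covers all Hénon maps over `ℚ` of odd degree whose `F` is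
`a (X - c) ^ d + b`, or any composition of such polynomials.

Method. Let `p` be a prime which is a primitive root modulo the primes dividing `d`, and `v` a place
above `p` of `L = K(P)`. The residue field contains no `l`-th root of unity except `1`, so there is
no cancellation in `F y - F x`: all terms of the Taylor expansion at `x` are at most `|F y - F x|`.
Hence the orbit `z` of a periodic point, a sequence with `z (n + 1) + δ z (n - 1) = F (z n)`, is
constant or becomes a solution of such a recursion with integral coefficients after an affine change
of the variable (the unit of length is the largest distance between consecutive points). Periods of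
integral recursions are bounded in terms of `p`, the residue degree and the ramification index
only (Pezda's method; for `|δ| < 1` all distances between corresponding points of two shifts are
equal, and one argues in dimension one). Finally there are at most `d ^ N` sequences of period `N`.
-/

set_option autoImplicit false

open Polynomial

namespace Pool.Agent.N236.Shelf.UniformExceptional

open Pool.Agent.N236.UB

theorem result : ∀ D B d : ℕ, 2 ≤ d → ∃ C : ℕ,
    ∀ (K : Type) [Field K] [NumberField K], Module.finrank ℚ K = D →
      ∀ (F : K[X]) (δ : K), δ ≠ 0 → F.natDegree = d → Exc (D * B) F →
        {P : AlgebraicClosure K × AlgebraicClosure K |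
          (∃ N : ℕ, 1 ≤ N ∧ Function.IsPeriodicPt (henon F δ) N P) ∧
          Module.finrank K (IntermediateField.adjoin K {P.1, P.2}) ≤ B}.Finite ∧
        {P : AlgebraicClosure K × AlgebraicClosure K |
          (∃ N : ℕ, 1 ≤ N ∧ Function.IsPeriodicPt (henon F δ) N P) ∧
          Module.finrank K (IntermediateField.adjoin K {P.1, P.2}) ≤ B}.ncard ≤ C :=
  fun D B d hd => henon_main s_place s_prime s_deg s_sepc s_pow s_dicv s_int s_per1 s_per2 s_fix D B d hd

end Pool.Agent.N236.Shelf.UniformExceptional
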